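import Mathlib

/-!
# Every countable weighted multigraph is majority 3-colourable

Colour the vertices of infinite degree that have infinitely many neighbours of finite degree
with colour `0`; colour the other vertices of infinite degree greedily with `1`, `2`; the vertices
of finite degree get `1`, `2` by maximising finite cuts and a compactness argument.
-/

set_option autoImplicit false

namespace Pool.Agent.Results.MP_e8eed4_co.ThreeColours

open scoped ENNReal

open Classical in
/-- `D_φ(v)`: the total weight of the edges `vu` with `φ u ≠ φ v`, a number or `∞`. -/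
noncomputable def bichromatic {V C : Type*} (G : SimpleGraph V) (w : Sym2 V → ℕ) (φ : V → C)
    (v : V) : ℝ≥0∞ :=
  ∑' u : V, if G.Adj v u ∧ φ u ≠ φ v then (w s(v, u) : ℝ≥0∞) else 0

open Classical in
/-- `S_φ(v)`: the total weight of the edges `vu` with `φ u = φ v`, a number or `∞`. -/
noncomputable def monochromatic {V C : Type*} (G : SimpleGraph V) (w : Sym2 V → ℕ) (φ : V → C)
    (v : V) : ℝ≥0∞ :=
  ∑' u : V, if G.Adj v u ∧ φ u = φ v then (w s(v, u) : ℝ≥0∞) else 0

/-- `φ` is a majority colouring of the weighted graph `(G, w)`. -/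
def IsMajority {V C : Type*} (G : SimpleGraph V) (w : Sym2 V → ℕ) (φ : V → C) : Prop :=
  ∀ v, monochromatic G w φ v ≤ bichromatic G w φ v

/-! ### Greedy colouring -/

section greedy

variable {V : Type*} [Countable V]

/-- A countable family of infinite sets: some two-colouring is such that infinitely many members
of each set have a colour different from that of the index. -/
theorem greedy (Y : Set V) (N : V → Set V) (hN : ∀ v ∈ Y, (N v).Infinite) :
    ∃ c : V → Bool, ∀ v ∈ Y, {u | u ∈ N v ∧ c u ≠ c v}.Infinite := by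
  classical
  rcases Y.eq_empty_or_nonempty with rfl | hne
  · exact ⟨fun _ => true, fun v hv => absurd hv (Set.notMem_empty v)⟩
  obtain ⟨enc, henc⟩ := Countable.exists_injective_nat V
  have : Nonempty (Y × ℕ) := ⟨(⟨hne.some, hne.some_mem⟩, 0)⟩
  obtain ⟨s, hs⟩ := exists_surjective_nat (Y × ℕ)
  have hfin : ∀ n : ℕ, {u : V | enc u ≤ n}.Finite := fun n =>
    (Set.finite_Iic n).preimage henc.injOn
  have hpick : ∀ (k : ℕ) (A : Finset V), ∃ u, u ∈ N (s k).1.1 ∧ u ∉ A ∧ enc (s k).1.1 < enc u := by
    intro k A
    have h1 := hN _ (s k).1.2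
    obtain ⟨u, hu, hu2⟩ := h1.exists_notMem_finset (A ∪ (hfin (enc (s k).1.1)).toFinset)
    simp only [Finset.mem_union, Set.Finite.mem_toFinset, Set.mem_ofPred_eq, not_or, not_le] at hu2
    exact ⟨u, hu, hu2.1, hu2.2⟩
  choose pick hp1 hp2 hp3 using hpick
  let build : ℕ → Finset V := fun n => Nat.rec ∅ (fun k A => insert (pick k A) A) n
  have hb : ∀ k, build (k + 1) = insert (pick k (build k)) (build k) := fun k => rfl
  let U : ℕ → V := fun k => pick k (build k)
  have hmono : ∀ j k, j ≤ k → build j ⊆ build k := by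
    intro j k hjk
    induction hjk with
    | refl => exact Finset.Subset.refl _
    | step _ ih => exact ih.trans (by rw [hb]; exact Finset.subset_insert _ _)
  have hinj : Function.Injective U := by
    have key : ∀ j k, j < k → U j ≠ U k := by
      intro j k hjk h
      have h1 : U j ∈ build k := hmono (j + 1) k hjk (by rw [hb]; exact Finset.mem_insert_self _ _)
      exact hp2 k (build k) (by rw [h] at h1; exact h1)
    intro j k h
    rcases lt_trichotomy j k with h1 | h1 | h1
    · exact absurd h (key _ _ h1)
    · exact h1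
    · exact absurd h.symm (key _ _ h1)
  -- the parent of `U k` is `(s k).1`
  let par : V → Option V := fun u => if h : ∃ k, U k = u then some (s h.choose).1.1 else none
  have hpar : ∀ k, par (U k) = some (s k).1.1 := by
    intro k
    have h : ∃ j, U j = U k := ⟨k, rfl⟩
    have h2 : h.choose = k := hinj h.choose_spec
    simp only [par, dif_pos h, h2]
  have hlt : ∀ u v, par u = some v → enc v < enc u := by
    intro u v huv
    by_cases h : ∃ k, U k = u
    · obtain ⟨k, rfl⟩ := h
      rw [hpar] at huv
      rw [← Option.some.inj huv]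
      exact hp3 k (build k)
    · simp only [par, dif_neg h] at huv
      exact absurd huv (by simp)
  -- colouring by recursion
  have hrec : ∀ n : ℕ, ∃ c : V → Bool, ∀ u v, enc u ≤ n → par u = some v → c u ≠ c v := by
    intro n
    induction n with
    | zero =>
      refine ⟨fun _ => true, fun u v hu huv => ?_⟩
      have := hlt u v huv
      omega
    | succ n ih =>
      obtain ⟨c, hc⟩ := ih
      refine ⟨fun u => if enc u = n + 1 then (match par u with
        | some v => !(c v)
        | none => true) else c u, fun u v hu huv => ?_⟩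
      have hv := hlt u v huv
      by_cases h : enc u = n + 1
      · have h2 : enc v ≠ n + 1 := by omega
        simp only [h, if_true, if_neg h2, huv]
        simp
      · have h2 : enc v ≠ n + 1 := by omega
        simp only [if_neg h, if_neg h2]
        exact hc u v (by omega) huv
  choose cs hcs using hrec
  -- a coherent choice: compactness by an ultrafilter
  have hlim : ∀ v, ∃ b : Bool, ∀ᶠ n in (Filter.hyperfilter ℕ : Filter ℕ), cs n v = b := by
    intro v
    rcases (Filter.hyperfilter ℕ).eventually_or.mp
      (Filter.Eventually.of_forall fun n => Bool.eq_false_or_eq_true (cs n v)) with h | h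
    · exact ⟨_, h⟩
    · exact ⟨_, h⟩
  choose c hc using hlim
  have hcc : ∀ u v, par u = some v → c u ≠ c v := by
    intro u v huv heq
    have h1 : ∀ᶠ n in (Filter.hyperfilter ℕ : Filter ℕ), enc u ≤ n :=
      Filter.hyperfilter_le_cofinite.trans Nat.cofinite_eq_atTop.le (Filter.eventually_ge_atTop _)
    obtain ⟨n, h2, h3, h4⟩ := (h1.and ((hc u).and (hc v))).exists
    exact hcs n u v h2 huv (by rw [h3, h4, heq])
  refine ⟨c, fun v hv => ?_⟩
  have hinf : (Set.range fun i : ℕ => U ((hs (⟨v, hv⟩, i)).choose)).Infinite := by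
    apply Set.infinite_range_of_injective
    intro i j hij
    have h1 := hinj hij
    have h2 := (hs (⟨v, hv⟩, i)).choose_spec
    have h3 := (hs (⟨v, hv⟩, j)).choose_spec
    rw [h1, h3] at h2
    exact (congrArg Prod.snd h2).symm
  refine hinf.mono ?_
  rintro u ⟨i, rfl⟩
  have h2 := (hs (⟨v, hv⟩, i)).choose_spec
  set k := (hs (⟨v, hv⟩, i)).choose
  have h3 : (s k).1.1 = v := by rw [h2]
  refine ⟨?_, ?_⟩
  · have := hp1 k (build k)
    rw [h3] at this
    exact this
  · have := hpar k
    rw [h3] at this
    exact hcc _ _ this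

end greedy

/-! ### Finite cuts -/

section cut

variable {V : Type*}

open Classical in
/-- The total weight of the bichromatic pairs in `B` (every pair counted twice). -/
def cutSum (W : V → V → ℕ) (B : Finset V) (c : V → Fin 3) : ℕ :=
  ∑ x ∈ B, ∑ y ∈ B, if c x ≠ c y then W x y else 0

open Classical in
theorem cutSum_split (W : V → V → ℕ) (hsymm : ∀ x y, W x y = W y x) (B : Finset V) (v : V)
    (hv : v ∈ B) (c : V → Fin 3) :
    cutSum W B c = (∑ x ∈ B.erase v, ∑ y ∈ B.erase v, if c x ≠ c y then W x y else 0) +
      2 * ∑ y ∈ B.erase v, if c v ≠ c y then W v y else 0 := by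
  have h1 : ∀ f : V → ℕ, ∑ x ∈ B, f x = f v + ∑ x ∈ B.erase v, f x := fun f =>
    (Finset.add_sum_erase B f hv).symm
  unfold cutSum
  rw [h1]
  have h2 : ∀ x, (∑ y ∈ B, if c x ≠ c y then W x y else 0) =
      (if c x ≠ c v then W x v else 0) + ∑ y ∈ B.erase v, if c x ≠ c y then W x y else 0 :=
    fun x => h1 _
  rw [Finset.sum_congr rfl fun x _ => h2 x, Finset.sum_add_distrib, h2 v]
  have h3 : (∑ x ∈ B.erase v, if c x ≠ c v then W x v else 0) =
      ∑ y ∈ B.erase v, if c v ≠ c y then W v y else 0 := by
    refine Finset.sum_congr rfl fun x _ => ?_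
    rw [hsymm x v]
    by_cases h : c x = c v
    · rw [if_neg (by simpa using h), if_neg (by simpa using h.symm)]
    · rw [if_pos h, if_pos (Ne.symm h)]
  rw [h3, if_neg (by simp)]
  ring

open Classical in
/-- A maximum cut: colours outside `A` are prescribed, colours in `A` are `1` or `2`. -/
theorem finite_cut (W : V → V → ℕ) (hsymm : ∀ x y, W x y = W y x) (hloop : ∀ x, W x x = 0)
    (A B : Finset V) (hAB : A ⊆ B) (c0 : V → Fin 3) :
    ∃ c : V → Fin 3, (∀ v, v ∉ A → c v = c0 v) ∧ (∀ v ∈ A, c v = 1 ∨ c v = 2) ∧
      ∀ v ∈ A, ∑ y ∈ B, (if c y = c v then W v y else 0) ≤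
        ∑ y ∈ B, (if c y ≠ c v then W v y else 0) := by
  let col : (A → Bool) → V → Fin 3 := fun g v =>
    if h : v ∈ A then (if g ⟨v, h⟩ then 1 else 2) else c0 v
  obtain ⟨g, hg⟩ := Finite.exists_max (fun g : A → Bool => cutSum W B (col g))
  have hcolA : ∀ g v (h : v ∈ A), col g v = if g ⟨v, h⟩ then 1 else 2 := by
    intro g v h
    simp only [col, dif_pos h]
  refine ⟨col g, fun v hv => by simp only [col, dif_neg hv], fun v hv => ?_, fun v hv => ?_⟩
  · rw [hcolA g v hv]
    cases g ⟨v, hv⟩
    · right; rfl
    · left; rfl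
  · set g' : A → Bool := Function.update g ⟨v, hv⟩ (!(g ⟨v, hv⟩)) with hg'
    have hoff : ∀ x, x ≠ v → col g' x = col g x := by
      intro x hx
      by_cases hxA : x ∈ A
      · rw [hcolA _ _ hxA, hcolA _ _ hxA, hg', Function.update_of_ne]
        intro h
        exact hx (congrArg Subtype.val h)
      · simp only [col, dif_neg hxA]
    have hv' : col g' v ≠ col g v := by
      rw [hcolA _ _ hv, hcolA _ _ hv, hg', Function.update_self]
      cases g ⟨v, hv⟩ <;> decide
    have hmax := hg g'
    rw [cutSum_split W hsymm B v (hAB hv), cutSum_split W hsymm B v (hAB hv)] at hmax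
    have e1 : (∑ x ∈ B.erase v, ∑ y ∈ B.erase v, if col g' x ≠ col g' y then W x y else 0) =
        ∑ x ∈ B.erase v, ∑ y ∈ B.erase v, if col g x ≠ col g y then W x y else 0 := by
      refine Finset.sum_congr rfl fun x hx => Finset.sum_congr rfl fun y hy => ?_
      rw [hoff x (Finset.ne_of_mem_erase hx), hoff y (Finset.ne_of_mem_erase hy)]
    have e2 : (∑ y ∈ B.erase v, if col g v = col g y then W v y else 0) ≤
        ∑ y ∈ B.erase v, if col g' v ≠ col g' y then W v y else 0 := by
      refine Finset.sum_le_sum fun y hy => ?_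
      rw [hoff y (Finset.ne_of_mem_erase hy)]
      by_cases h : col g v = col g y
      · rw [if_pos h, if_pos (by rw [← h]; exact hv')]
      · rw [if_neg h]; exact Nat.zero_le _
    have e3 : ∀ f : V → ℕ, f v = 0 → ∑ x ∈ B, f x = ∑ x ∈ B.erase v, f x := fun f hf => by
      rw [← Finset.add_sum_erase B f (hAB hv), hf, zero_add]
    rw [e3 _ (by simp [hloop]), e3 _ (by simp)]
    have e4 : (∑ y ∈ B.erase v, if col g y = col g v then W v y else 0) =
        ∑ y ∈ B.erase v, if col g v = col g y then W v y else 0 :=
      Finset.sum_congr rfl fun y _ => by simp only [eq_comm]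
    have e5 : (∑ y ∈ B.erase v, if col g y ≠ col g v then W v y else 0) =
        ∑ y ∈ B.erase v, if col g v ≠ col g y then W v y else 0 :=
      Finset.sum_congr rfl fun y _ => by simp only [ne_comm]
    rw [e4, e5]
    rw [e1] at hmax
    omega

end cut

/-! ### The theorem -/

/-- The weight of the pair `u v` (zero if it is not an edge). -/
noncomputable def wt {V : Type*} (G : SimpleGraph V) (w : Sym2 V → ℕ) (u v : V) : ℕ :=
  open Classical in if G.Adj u v then w s(u, v) else 0

theorem bichromatic_eq_top {V C : Type*} (G : SimpleGraph V) (w : Sym2 V → ℕ) (φ : V → C) (v : V)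
    (h : {u | wt G w v u ≠ 0 ∧ φ u ≠ φ v}.Infinite) : bichromatic G w φ v = ⊤ := by
  classical
  have : Infinite {u | wt G w v u ≠ 0 ∧ φ u ≠ φ v} := h.to_subtype
  have h1 : ∑' _ : {u | wt G w v u ≠ 0 ∧ φ u ≠ φ v}, (1 : ℝ≥0∞) = ⊤ :=
    ENNReal.tsum_const_eq_top_of_ne_zero one_ne_zero
  rw [eq_top_iff, ← h1]
  unfold bichromatic
  refine le_trans ?_ (ENNReal.tsum_comp_le_tsum_of_injective
    (f := fun u : {u | wt G w v u ≠ 0 ∧ φ u ≠ φ v} => (u : V)) Subtype.val_injective _)
  refine ENNReal.tsum_le_tsum fun u => ?_
  obtain ⟨u, hu1, hu2⟩ := u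
  unfold wt at hu1
  by_cases hadj : G.Adj v u
  · rw [if_pos hadj] at hu1
    simp only [hadj, true_and]
    rw [if_pos hu2]
    exact_mod_cast Nat.one_le_iff_ne_zero.mpr hu1
  · rw [if_neg hadj] at hu1
    exact absurd rfl hu1

/-- **Every countable multigraph is majority 3-colourable.** -/
theorem result (V : Type*) [Countable V] (G : SimpleGraph V) (w : Sym2 V → ℕ) :
    ∃ φ : V → Fin 3, IsMajority G w φ := by
  classical
  obtain ⟨enc, henc⟩ := Countable.exists_injective_nat V
  let W : V → V → ℕ := wt G w
  have hsymm : ∀ x y, W x y = W y x := by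
    intro x y
    simp only [W, wt, G.adj_comm x y, Sym2.eq_swap (a := x) (b := y)]
  have hloop : ∀ x, W x x = 0 := by
    intro x
    simp [W, wt]
  let N : V → Set V := fun v => {u | W v u ≠ 0}
  let F : Set V := {v | (N v).Finite}
  let X1 : Set V := {v | v ∉ F ∧ (N v ∩ F).Infinite}
  let X2 : Set V := {v | v ∉ F ∧ ¬ (N v ∩ F).Infinite}
  obtain ⟨b, hb⟩ := greedy {v | v ∈ X2 ∧ (N v ∩ X2).Infinite} (fun v => N v ∩ X2)
    (fun v hv => hv.2)
  let c0 : V → Fin 3 := fun v => if v ∈ X1 then 0 else if b v then 1 else 2
  -- finite stages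
  let A : ℕ → Finset V := fun n =>
    (((Set.finite_Iic n).preimage henc.injOn).inter_of_right F).toFinset
  have hA : ∀ n v, v ∈ A n ↔ v ∈ F ∧ enc v ≤ n := by
    intro n v
    simp [A]
  have hNfin : ∀ v ∈ F, (N v).Finite := fun v hv => hv
  have hB : ∀ n, ∃ B : Finset V, A n ⊆ B ∧ ∀ v ∈ A n, N v ⊆ B := by
    intro n
    refine ⟨A n ∪ (A n).biUnion (fun v => if h : v ∈ F then (hNfin v h).toFinset else ∅),
      Finset.subset_union_left, fun v hv u hu => ?_⟩
    have hvF := ((hA n v).mp hv).1
    rw [Finset.mem_coe, Finset.mem_union, Finset.mem_biUnion]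
    right
    refine ⟨v, hv, ?_⟩
    rw [dif_pos hvF, Set.Finite.mem_toFinset]
    exact hu
  choose B hB1 hB2 using hB
  have hstage := fun n => finite_cut W hsymm hloop (A n) (B n) (hB1 n) c0
  choose cs hcs1 hcs2 hcs3 using hstage
  -- the limit
  have hlim : ∀ v, ∃ k : Fin 3, ∀ᶠ n in (Filter.hyperfilter ℕ : Filter ℕ), cs n v = k := by
    intro v
    exact (Filter.hyperfilter ℕ).eventually_exists_iff.mp
      (Filter.Eventually.of_forall fun n => ⟨cs n v, rfl⟩)
  choose φ hφ using hlim
  have hφX : ∀ v, v ∉ F → φ v = c0 v := by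
    intro v hv
    obtain ⟨n, hn⟩ := (hφ v).exists
    rw [← hn]
    exact hcs1 n v fun h => hv ((hA n v).mp h).1
  have hlarge : ∀ m, ∀ᶠ n in (Filter.hyperfilter ℕ : Filter ℕ), m ≤ n := fun m =>
    Filter.hyperfilter_le_cofinite.trans Nat.cofinite_eq_atTop.le (Filter.eventually_ge_atTop _)
  have hφF : ∀ v ∈ F, φ v = 1 ∨ φ v = 2 := by
    intro v hv
    obtain ⟨n, h1, h2⟩ := ((hφ v).and (hlarge (enc v))).exists
    rw [← h1]
    exact hcs2 n v ((hA n v).mpr ⟨hv, h2⟩)
  refine ⟨φ, fun v => ?_⟩
  by_cases hvF : v ∈ F
  · -- finite degree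
    have h1 : ∀ᶠ n in (Filter.hyperfilter ℕ : Filter ℕ), ∀ u ∈ insert v (N v), cs n u = φ u :=
      (Filter.eventually_all_finite ((hNfin v hvF).insert v)).mpr fun u _ => hφ u
    obtain ⟨n, hn1, hn2⟩ := (h1.and (hlarge (enc v))).exists
    have hvA : v ∈ A n := (hA n v).mpr ⟨hvF, hn2⟩
    have h2 := hcs3 n v hvA
    have hcv : cs n v = φ v := hn1 v (Set.mem_insert _ _)
    have hzero : ∀ u, u ∉ B n → W v u = 0 := by
      intro u hu
      by_contra h
      exact hu (hB2 n v hvA h)
    have e1 : monochromatic G w φ v =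
        ((∑ y ∈ B n, (if cs n y = cs n v then W v y else 0) : ℕ) : ℝ≥0∞) := by
      unfold monochromatic
      rw [tsum_eq_sum (s := B n)]
      · push_cast
        refine Finset.sum_congr rfl fun y _ => ?_
        by_cases hadj : G.Adj v y
        · by_cases hw : w s(v, y) = 0
          · simp [W, wt, hw]
          · have hy : cs n y = φ y := hn1 y (Set.mem_insert_of_mem _ (by
              show W v y ≠ 0
              simp only [W, wt, if_pos hadj]
              exact hw))
            rw [hy, hcv]
            simp [W, wt, hadj]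
        · simp [W, wt, hadj]
      · intro u hu
        have := hzero u hu
        by_cases hadj : G.Adj v u
        · simp only [W, wt, if_pos hadj] at this
          simp [this]
        · simp [hadj]
    have e2 : bichromatic G w φ v =
        ((∑ y ∈ B n, (if cs n y ≠ cs n v then W v y else 0) : ℕ) : ℝ≥0∞) := by
      unfold bichromatic
      rw [tsum_eq_sum (s := B n)]
      · push_cast
        refine Finset.sum_congr rfl fun y _ => ?_
        by_cases hadj : G.Adj v y
        · by_cases hw : w s(v, y) = 0
          · simp [W, wt, hw]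
          · have hy : cs n y = φ y := hn1 y (Set.mem_insert_of_mem _ (by
              show W v y ≠ 0
              simp only [W, wt, if_pos hadj]
              exact hw))
            rw [hy, hcv]
            simp [W, wt, hadj]
        · simp [W, wt, hadj]
      · intro u hu
        have := hzero u hu
        by_cases hadj : G.Adj v u
        · simp only [W, wt, if_pos hadj] at this
          simp [this]
        · simp [hadj]
    rw [e1, e2]
    exact_mod_cast h2
  · -- infinite degree
    have htop : bichromatic G w φ v = ⊤ := by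
      apply bichromatic_eq_top
      by_cases hX1 : v ∈ X1
      · refine hX1.2.mono fun u hu => ⟨hu.1, ?_⟩
        have h0 : φ v = 0 := by rw [hφX v hvF]; simp only [c0, if_pos hX1]
        rw [h0]
        rcases hφF u hu.2 with h | h <;> rw [h] <;> decide
      · have hX2 : v ∈ X2 := ⟨hvF, fun h => hX1 ⟨hvF, h⟩⟩
        have hv0 : φ v = if b v then 1 else 2 := by
          rw [hφX v hvF]; simp only [c0, if_neg hX1]
        by_cases hinf : (N v ∩ X2).Infinite
        · refine (hb v ⟨hX2, hinf⟩).mono fun u hu => ⟨hu.1.1, ?_⟩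
          have huX1 : u ∉ X1 := fun h => hu.1.2.2 h.2
          have hu0 : φ u = if b u then 1 else 2 := by
            rw [hφX u hu.1.2.1]; simp only [c0, if_neg huX1]
          rw [hu0, hv0]
          have h := hu.2
          revert h
          cases b u <;> cases b v <;> simp
        · have h1 : (N v ∩ X1).Infinite := by
            by_contra h
            rw [Set.not_infinite] at h hinf
            have h3 : (N v ∩ F).Finite := Set.not_infinite.mp hX2.2
            refine hvF (((h.union hinf).union h3).subset fun u hu => ?_)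
            by_cases huF : u ∈ F
            · exact Or.inr ⟨hu, huF⟩
            · left
              by_cases h4 : (N u ∩ F).Infinite
              · exact Or.inl ⟨hu, huF, h4⟩
              · exact Or.inr ⟨hu, huF, h4⟩
          refine h1.mono fun u hu => ⟨hu.1, ?_⟩
          have hu0 : φ u = 0 := by rw [hφX u hu.2.1]; simp only [c0, if_pos hu.2]
          rw [hu0, hv0]
          cases b v <;> decide
    rw [htop]
    exact le_top

end Pool.Agent.Results.MP_e8eed4_co.ThreeColours
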